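import Pool.Agent.Y924.UF.Stm

/-! # Project UF, task REN: semantics of renaming and of blocks of quantifiers -/

set_option autoImplicit false

namespace Pool.Agent.Y514.UF

open Function
open Pool.Agent.Y924.EL
open Pool.Agent.Y924.UF

lemma sat_ren (K : Type) [CommRing K] (O : Set K) (σ : ℕ → ℕ) (hσ : Injective σ) (φ : Fm) :
    ∀ v : ℕ → K, (Sat O (ren σ φ) v ↔ Sat O φ (v ∘ σ)) := by
  induction φ with
  | eq i j => intro v; exact Iff.rfl
  | one i => intro v; exact Iff.rfl
  | add i j k => intro v; exact Iff.rfl
  | mul i j k => intro v; exact Iff.rfl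
  | val i => intro v; exact Iff.rfl
  | neg φ ih => intro v; exact not_congr (ih v)
  | and φ ψ ih1 ih2 => intro v; exact and_congr (ih1 v) (ih2 v)
  | ex i φ ih =>
    intro v
    refine exists_congr fun a => ?_
    rw [ih (update v (σ i) a), Function.update_comp_eq_of_injective v hσ i a]

lemma sat_exsT (K : Type) [CommRing K] (O : Set K) (V : ℕ) :
    ∀ (τ : Tp) (h : Fin 5 → Fm) (v : ℕ → K), (Sat O ((exsT V τ).inst h) v ↔
      ∃ w : ℕ → K, (∀ i, V ≤ i → w i = v i) ∧ Sat O (τ.inst h) w) := by
  induction V with
  | zero =>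
    intro τ h v
    constructor
    · intro hs
      exact ⟨v, fun i _ => rfl, hs⟩
    · rintro ⟨w, hw, hs⟩
      have e : w = v := funext fun i => hw i (Nat.zero_le i)
      rw [e] at hs
      exact hs
  | succ n ih =>
    intro τ h v
    have e1 : exsT (n + 1) τ = exsT n (.ex n τ) := rfl
    rw [e1, ih]
    constructor
    · rintro ⟨w, hw, a, ha⟩
      refine ⟨update w n a, fun i hi => ?_, ha⟩
      rw [Function.update_of_ne (by omega)]
      exact hw i (by omega)
    · rintro ⟨w, hw, hs⟩
      refine ⟨update w n (v n), fun i hi => ?_, w n, ?_⟩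
      · by_cases hin : i = n
        · rw [hin, Function.update_self]
        · rw [Function.update_of_ne hin]
          exact hw i (by omega)
      · rw [Function.update_idem, Function.update_eq_self]
        exact hs

/-- **REN** -/
theorem t_REN : Pool.Agent.Y924.UF.S_REN :=
  ⟨fun K _ O σ hσ φ v => sat_ren K O σ hσ φ v, fun K _ O V τ h v => sat_exsT K O V τ h v⟩

end Pool.Agent.Y514.UF
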